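import Pool.Agent.H55.MZ.Fin
import Pool.Agent.H55.MZ.ALG
import Pool.Agent.H55.MZ.GOOD
import Pool.Agent.H55.MZ.GROW
import Pool.Agent.H55.MZ.IRR
import Pool.Agent.H55.MZ.NORM
import Pool.Agent.H55.MZ.NULL
import Pool.Agent.H55.MZ.RATIO
import Pool.Agent.H55.MZ.RED

/-!
# Mazur's question for surfaces with an automorphism of positive entropy, almost all places
(helper55, with helpers 32, 46, 52, 64, 72, 85, 95)

`K` is a number field and `X ⊂ ℙⁿ` is an irreducible projective surface over `K` (a variety with three linear forms
without common zero on it) with an automorphism `f` such that `f^* O(1) ⊗ (f⁻¹)^* O(1) = O(d)`, `d ≥ 3`, by forms of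
degree `d`: there is a matrix `Φ` of forms of degree `d` with `Φ(x) = f(x) ⊗ f⁻¹(x)` for all `x ∈ X`, without common
zero on `X`.  For instance every K3 surface of Picard number two with infinitely many automorphisms has such an `f`
for each of its projective embeddings of sufficiently large degree (the sum of the isometry `f^*` of the Picard lattice
and of its inverse is multiplication by the trace `d`).  These surfaces have in general no fibration by curves of genus
one and no group structure.

We prove: at all but finitely many places `v` of `K` each local Zariski closure of `X(K)` is empty, or `X`, or a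
point, and these points form a finite set `T` which does not depend on `v`.  And at every place `v` the
family of the local Zariski closures is finite if and only if `X(K)` is Zariski dense in `X` near each point of
`X(K)` outside `T`.

Idea of the proof.  At a place of good reduction `f` permutes the finitely many classes of the points modulo each
power of the prime, so each `K`-point is recurrent: there is `q` such that the points `f^(q m) (x)` are near `x`.
The heights satisfy `h(f x) + h(f⁻¹ x) = d h(x) + O(1)`, so the orbits of the points outside of a finite set have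
`h(f^(k+1) x) / h(f^k x) → λ = (d + √(d² - 4)) / 2`, and no power of `λ` is rational.  But on a curve two heights have
asymptotically a rational ratio (a quantitative form of the elimination theory of two functions on a curve).  So no
curve contains the points `f^(q m) (x)`.
-/

set_option autoImplicit false

open MvPolynomial Pool.Agent.H55.MZ

namespace Pool.Agent.H55.Old.PicardTwoAutomorphisms

/-- **Theorem.**  Let `K` be a number field and `I ⊂ K[x₀, …, x_n]` a homogeneous prime ideal such that some three linear
forms have no common zero on the variety `X` of `I` (so `dim X ≤ 2`).  Let `f` be an automorphism of `X` such that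
`f(x) ⊗ f⁻¹(x)` is given by forms `Φ i j` of degree `d ≥ 3` without common zero on `X`.  Then there are a finite set `T`
of `K`-points of `X` and a natural number `N ≠ 0` such that

* for every normed field `L ⊃ K` the local Zariski closures of `X(K)` form a finite set if and only if
  the local closure at each `K`-point of `X` outside of `T` is `X`, and
* for every nonarchimedean local field `L ⊃ K` in which `N` is a unit, each local Zariski closure of `X(K)` is
  empty (the ideal is `⊤`), or `X`, or a point of `T`. -/
theorem result {K : Type} [Field K] [NumberField K] {n : ℕ} (I : Ideal (Poly K n)) (_ : I.IsPrime) (_ : Homog I)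
    (ℓ : Fin 3 → Poly K n) (_ : ∀ i, (ℓ i).IsHomogeneous 1) (_ : NoZero I ℓ)
    (d : ℕ) (_ : 3 ≤ d) (Φ : Fin (n + 1) → Fin (n + 1) → Poly K n) (_ : IsAuto I d Φ) :
    ∃ (T : Finset (Fin (n + 1) → K)) (N : ℕ), (∀ t ∈ T, Pt I t) ∧ N ≠ 0 ∧
      (∀ (L : Type) [NormedField L] (σ : K →+* L),
        {J : Ideal (Poly K n) | ∃ x : Fin (n + 1) → L, x ≠ 0 ∧ J = localIdeal I σ x}.Finite ↔
          ∀ P, Pt I P → (∀ t ∈ T, ¬ Par t P) → localIdeal I σ (fun i => σ (P i)) = I) ∧
      (∀ (L : Type) [NontriviallyNormedField L] [IsUltrametricDist L] [ProperSpace L] (σ : K →+* L),
        ‖(N : L)‖ = 1 → ∀ x : Fin (n + 1) → L, x ≠ 0 →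
          localIdeal I σ x = ⊤ ∨ localIdeal I σ x = I ∨
          ∃ t ∈ T, (∃ c : L, c ≠ 0 ∧ x = fun i => c * σ (t i)) ∧ localIdeal I σ x = pointIdeal t) :=
  main NULL.t GROW.t IRR.t RATIO.t NORM.t ALG.t (GOOD.t NULL.t) RED.t ‹_› ‹_› ‹_› ‹_› ℓ ‹_› ‹_›

end Pool.Agent.H55.Old.PicardTwoAutomorphisms
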